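import Mathlib
import Pool.Agent.Q175.Bnum

/-!
# A linearly ordered abelian group with an `ω^ω`-base but without a suitable set

The group is a subgroup of the lexicographically ordered group of all functions from the set of
the ordinals below the bounding number to the integers, with the order topology.  It is generated
by the characteristic functions of the finite sets and of a ladder for every limit of countable
cofinality.
-/

open Set Filter Topology TopologicalSpace
open Q175.B1 Cardinal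

namespace Pool.Agent.Results.MP_eb7acf_gt.NoSuitableSet

/-- `S` is a suitable set of the topological group `G` (written additively): `S` is a discrete
subspace, `S ∪ {0}` is closed, and the subgroup generated by `S` is dense. -/
def IsSuitable {G : Type*} [AddGroup G] [TopologicalSpace G] (S : Set G) : Prop :=
  DiscreteTopology S ∧ IsClosed (S ∪ {0}) ∧ Dense (AddSubgroup.closure S : Set G)

/-! ### The group -/

/-- The characteristic function of a set. -/
noncomputable def ind (A : Set K) : K → ℤ := A.indicator 1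

theorem ind_of_mem {A : Set K} {a : K} (h : a ∈ A) : ind A a = 1 := by
  simp [ind, h]

theorem ind_of_notMem {A : Set K} {a : K} (h : a ∉ A) : ind A a = 0 := by
  simp [ind, h]

open Classical in
/-- A ladder at `δ`, if `δ` is a limit. -/
noncomputable def lad (δ : K) : Set K :=
  if h : IsLim δ then range h.choose else ∅

theorem lad_lt {δ : K} {a : K} (ha : a ∈ lad δ) : a < δ := by
  unfold lad at ha
  split_ifs at ha with h
  · obtain ⟨n, rfl⟩ := ha
    exact h.choose_spec.2.1 n
  · exact absurd ha (notMem_empty _)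

theorem lad_cofinal {δ : K} (h : IsLim δ) {β : K} (hβ : β < δ) : ∃ a ∈ lad δ, β < a := by
  obtain ⟨n, hn⟩ := h.choose_spec.2.2 β hβ
  refine ⟨_, ?_, hn⟩
  unfold lad
  rw [dif_pos h]
  exact ⟨n, rfl⟩

theorem lad_finite {δ β : K} (hβ : β < δ) : (lad δ ∩ Iio β).Finite := by
  unfold lad
  split_ifs with h
  · obtain ⟨h1, h2, h3⟩ := h.choose_spec
    obtain ⟨n, hn⟩ := h3 β hβ
    refine ((finite_Iio n).image h.choose).subset ?_
    rintro _ ⟨⟨m, rfl⟩, hm⟩
    exact ⟨m, h1.lt_iff_lt.1 (lt_trans hm hn), rfl⟩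
  · simp

/-- The sets whose characteristic functions generate the group. -/
def 𝒜 : Set (Set K) := {A | A.Finite} ∪ range lad

/-- The group, as a subgroup of the group of all functions. -/
noncomputable def Gs : AddSubgroup (K → ℤ) := AddSubgroup.closure (ind '' 𝒜)

theorem ind_mem {A : Set K} (hA : A ∈ 𝒜) : ind A ∈ Gs :=
  AddSubgroup.subset_closure ⟨A, hA, rfl⟩

/-- Truncation at `β`. -/
noncomputable def trunc (β : K) : (K → ℤ) →+ (K → ℤ) where
  toFun g := (Iio β).indicator g
  map_zero' := by simp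
  map_add' f g := Set.indicator_add _ _ _

theorem trunc_of_lt {β γ : K} (g : K → ℤ) (h : γ < β) : trunc β g γ = g γ :=
  Set.indicator_of_mem (mem_Iio.2 h) g

theorem trunc_of_le {β γ : K} (g : K → ℤ) (h : β ≤ γ) : trunc β g γ = 0 :=
  Set.indicator_of_notMem (fun h' => absurd (mem_Iio.1 h') (not_lt.2 h)) g

theorem trunc_ind (β : K) (A : Set K) : trunc β (ind A) = ind (A ∩ Iio β) := by
  funext γ
  rcases lt_or_ge γ β with h | h
  · rw [trunc_of_lt _ h]
    by_cases hA : γ ∈ A
    · rw [ind_of_mem hA, ind_of_mem (show γ ∈ A ∩ Iio β from ⟨hA, h⟩)]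
    · rw [ind_of_notMem hA, ind_of_notMem fun h' => hA h'.1]
  · rw [trunc_of_le _ h, ind_of_notMem fun h' => absurd h'.2 (not_lt.2 h)]

theorem lad_inter_of_le {β δ : K} (h : δ ≤ β) : lad δ ∩ Iio β = lad δ :=
  inter_eq_left.2 fun _ ha => (lad_lt ha).trans_le h

theorem inter_mem {A : Set K} (hA : A ∈ 𝒜) (β : K) : A ∩ Iio β ∈ 𝒜 := by
  rcases hA with hA | ⟨δ, rfl⟩
  · exact Or.inl (hA.subset inter_subset_left)
  · rcases lt_or_ge β δ with h | h
    · exact Or.inl (lad_finite h)
    · rw [lad_inter_of_le h]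
      exact Or.inr ⟨δ, rfl⟩

theorem trunc_mem {g : K → ℤ} (hg : g ∈ Gs) (β : K) : trunc β g ∈ Gs := by
  have h : AddSubgroup.map (trunc β) Gs ≤ Gs := by
    rw [Gs, AddMonoidHom.map_closure, AddSubgroup.closure_le]
    rintro _ ⟨_, ⟨A, hA, rfl⟩, rfl⟩
    rw [trunc_ind]
    exact ind_mem (inter_mem hA β)
  exact h ⟨g, hg, rfl⟩

theorem mk_trunc_lt (β : K) : #(trunc β '' (Gs : Set (K → ℤ))) < bb := by
  have h1 : trunc β '' (Gs : Set (K → ℤ)) =
      (AddSubgroup.closure (trunc β '' (ind '' 𝒜)) : Set (K → ℤ)) := by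
    rw [← AddMonoidHom.map_closure]
    rfl
  rw [h1]
  apply mk_closure_lt
  have h2 : trunc β '' (ind '' 𝒜) ⊆ ind '' ({A | A.Finite ∧ A ⊆ Iio β} ∪ lad '' Iic β) := by
    rintro _ ⟨_, ⟨A, hA, rfl⟩, rfl⟩
    rw [trunc_ind]
    refine ⟨_, ?_, rfl⟩
    rcases hA with hA | ⟨δ, rfl⟩
    · exact Or.inl ⟨hA.subset inter_subset_left, inter_subset_right⟩
    · rcases lt_or_ge β δ with h | h
      · exact Or.inl ⟨lad_finite h, inter_subset_right⟩
      · rw [lad_inter_of_le h]
        exact Or.inr ⟨δ, h, rfl⟩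
  refine (mk_le_mk_of_subset h2).trans_lt (mk_image_lt ?_ _)
  exact mk_union_lt (mk_finite_subsets_lt (Q175.B1.mk_Iio β)) (mk_image_lt (mk_Iic β) _)

/-- Every element has bounded support. -/
theorem exists_support_bound {g : K → ℤ} (hg : g ∈ Gs) : ∃ β, ∀ γ, β ≤ γ → g γ = 0 := by
  induction hg using AddSubgroup.closure_induction with
  | mem x hx =>
      obtain ⟨A, hA, rfl⟩ := hx
      have : ∃ β, ∀ a ∈ A, a < β := by
        rcases hA with hA | ⟨δ, rfl⟩
        · exact exists_bound_countable hA.countable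
        · exact ⟨δ, fun a ha => lad_lt ha⟩
      obtain ⟨β, hβ⟩ := this
      exact ⟨β, fun γ hγ => ind_of_notMem fun h => absurd (hβ γ h) (not_lt.2 hγ)⟩
  | zero => exact ⟨Classical.arbitrary _, fun _ _ => rfl⟩
  | add x y _ _ hx hy =>
      obtain ⟨β, hβ⟩ := hx
      obtain ⟨β', hβ'⟩ := hy
      refine ⟨max β β', fun γ hγ => ?_⟩
      rw [Pi.add_apply, hβ γ ((le_max_left _ _).trans hγ), hβ' γ ((le_max_right _ _).trans hγ),
        add_zero]
  | neg x _ hx =>
      obtain ⟨β, hβ⟩ := hx
      exact ⟨β, fun γ hγ => by rw [Pi.neg_apply, hβ γ hγ, neg_zero]⟩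

/-- The support of `g` is bounded in `δ`. -/
def Bdd (g : K → ℤ) (δ : K) : Prop := ∃ β < δ, ∀ γ, β ≤ γ → γ < δ → g γ = 0

theorem Bdd.add {g h : K → ℤ} {δ : K} (hg : Bdd g δ) (hh : Bdd h δ) : Bdd (g + h) δ := by
  obtain ⟨β, hβ, h1⟩ := hg
  obtain ⟨β', hβ', h2⟩ := hh
  refine ⟨max β β', max_lt hβ hβ', fun γ hγ hγδ => ?_⟩
  rw [Pi.add_apply, h1 γ ((le_max_left _ _).trans hγ) hγδ,
    h2 γ ((le_max_right _ _).trans hγ) hγδ, add_zero]

theorem Bdd.neg {g : K → ℤ} {δ : K} (hg : Bdd g δ) : Bdd (-g) δ := by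
  obtain ⟨β, hβ, h1⟩ := hg
  exact ⟨β, hβ, fun γ hγ hγδ => by rw [Pi.neg_apply, h1 γ hγ hγδ, neg_zero]⟩

theorem bdd_zero {δ : K} (hδ : IsLim δ) : Bdd 0 δ := by
  obtain ⟨β, hβ⟩ := hδ.nonempty
  exact ⟨β, hβ, fun _ _ _ => rfl⟩

theorem bdd_of_finite {A : Set K} {δ : K} (hδ : IsLim δ) (hA : (A ∩ Iio δ).Finite) :
    Bdd (ind A) δ := by
  rcases (A ∩ Iio δ).eq_empty_or_nonempty with h | h
  · obtain ⟨β, hβ⟩ := hδ.nonempty
    refine ⟨β, hβ, fun γ _ hγ => ind_of_notMem fun h' => ?_⟩
    have : γ ∈ A ∩ Iio δ := ⟨h', hγ⟩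
    rw [h] at this
    exact this
  · obtain ⟨m, hm, hmax⟩ := Set.exists_max_image _ id hA h
    obtain ⟨β, hβδ, hβ⟩ := hδ.exists_between hm.2
    refine ⟨β, hβδ, fun γ hγ hγδ => ind_of_notMem fun h' => ?_⟩
    have := hmax γ ⟨h', hγδ⟩
    exact absurd (hβ.trans_le hγ) (not_lt.2 this)

/-- The set of limits in which the support is unbounded is finite. -/
theorem finite_unbounded {g : K → ℤ} (hg : g ∈ Gs) : {δ | IsLim δ ∧ ¬ Bdd g δ}.Finite := by
  induction hg using AddSubgroup.closure_induction with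
  | mem x hx =>
      obtain ⟨A, hA, rfl⟩ := hx
      rcases hA with hA | ⟨δ, rfl⟩
      · refine finite_empty.subset ?_
        rintro δ ⟨hδ, h⟩
        exact h (bdd_of_finite hδ (hA.subset inter_subset_left))
      · refine (finite_singleton δ).subset ?_
        rintro δ' ⟨hδ', h⟩
        rcases lt_trichotomy δ' δ with h' | h' | h'
        · exact absurd (bdd_of_finite hδ' (lad_finite h')) h
        · exact h'
        · exact absurd ⟨δ, h', fun γ hγ _ => ind_of_notMem fun ha =>
            absurd (lad_lt ha) (not_lt.2 hγ)⟩ h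
  | zero =>
      refine finite_empty.subset ?_
      rintro δ ⟨hδ, h⟩
      exact h (bdd_zero hδ)
  | add x y _ _ hx hy =>
      refine (hx.union hy).subset ?_
      rintro δ ⟨hδ, h⟩
      by_contra hcon
      have h1 : Bdd x δ := by
        by_contra h1
        exact hcon (Or.inl ⟨hδ, h1⟩)
      have h2 : Bdd y δ := by
        by_contra h2
        exact hcon (Or.inr ⟨hδ, h2⟩)
      exact h (h1.add h2)
  | neg x _ hx =>
      refine hx.subset ?_
      rintro δ ⟨hδ, h⟩
      exact ⟨hδ, fun h' => h h'.neg⟩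

theorem not_bdd_lad {δ : K} (hδ : IsLim δ) : ¬ Bdd (ind (lad δ)) δ := by
  rintro ⟨β, hβ, h⟩
  obtain ⟨a, ha, hβa⟩ := lad_cofinal hδ hβ
  have := h a hβa.le (lad_lt ha)
  rw [ind_of_mem ha] at this
  exact one_ne_zero this

/-! ### The order and the topology -/

/-- The group as a type. -/
def G : Type := Gs

noncomputable instance : AddCommGroup G := inferInstanceAs (AddCommGroup Gs)

/-- The underlying function. -/
def val (g : G) : K → ℤ := g.1

theorem val_injective : Function.Injective val := Subtype.val_injective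

theorem val_mem (g : G) : val g ∈ Gs := g.2

theorem val_add (g h : G) : val (g + h) = val g + val h := rfl

theorem val_neg (g : G) : val (-g) = -val g := rfl

theorem val_sub (g h : G) : val (g - h) = val g - val h := rfl

theorem val_zero : val (0 : G) = 0 := rfl

noncomputable instance : LinearOrder G :=
  LinearOrder.lift' (fun g : G => toLex (val g)) fun _ _ h => val_injective (toLex.injective h)

theorem lt_def {g h : G} : g < h ↔ ∃ i, (∀ j < i, val g j = val h j) ∧ val g i < val h i :=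
  Iff.rfl

instance : IsOrderedAddMonoid G where
  add_le_add_left a b h c := by
    rcases h.eq_or_lt with h | h
    · rw [h]
    · refine le_of_lt ?_
      obtain ⟨i, hi, hlt⟩ := lt_def.1 h
      refine lt_def.2 ⟨i, fun j hj => ?_, ?_⟩
      · rw [val_add, val_add, Pi.add_apply, Pi.add_apply, hi j hj]
      · rw [val_add, val_add, Pi.add_apply, Pi.add_apply]
        linarith

noncomputable instance : TopologicalSpace G := Preorder.topology G

instance : OrderTopology G := ⟨rfl⟩

/-- The element `ind {α}`. -/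
noncomputable def e (α : K) : G := ⟨ind {α}, ind_mem (Or.inl (finite_singleton α))⟩

theorem val_e_self (α : K) : val (e α) α = 1 := ind_of_mem rfl

theorem val_e_of_ne {α β : K} (h : β ≠ α) : val (e α) β = 0 := ind_of_notMem h

theorem e_pos (α : K) : 0 < e α := by
  refine lt_def.2 ⟨α, fun j hj => ?_, ?_⟩
  · rw [val_e_of_ne hj.ne]
    rfl
  · rw [val_e_self]
    exact one_pos

/-- `x` and `y` agree below `α`. -/
def Agree (α : K) (x y : G) : Prop := ∀ β < α, val x β = val y β

theorem Agree.mono {α β : K} {x y : G} (h : Agree α x y) (hβ : β ≤ α) : Agree β x y :=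
  fun γ hγ => h γ (hγ.trans_le hβ)

theorem agree_of_lt {α : K} {x y : G} (h1 : x - e α < y) (h2 : y < x + e α) :
    Agree α x y := by
  obtain ⟨i, hi, hlt⟩ := lt_def.1 h1
  obtain ⟨j, hj, hlt'⟩ := lt_def.1 h2
  intro β hβ
  have hne : β ≠ α := hβ.ne
  have k1 : ∀ β < α, val (x - e α) β = val x β := by
    intro β hβ
    rw [val_sub, Pi.sub_apply, val_e_of_ne hβ.ne, sub_zero]
  have k2 : ∀ β < α, val (x + e α) β = val x β := by
    intro β hβ
    rw [val_add, Pi.add_apply, val_e_of_ne hβ.ne, add_zero]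
  rcases lt_or_ge i α with hia | hia
  · rcases lt_or_ge j α with hja | hja
    · exfalso
      rw [k1 i hia] at hlt
      rw [k2 j hja] at hlt'
      rcases lt_trichotomy i j with hij | hij | hij
      · have := hj i hij
        rw [k2 i hia] at this
        omega
      · subst hij
        omega
      · have := hi j hij
        rw [k1 j hja] at this
        omega
    · have := hj β (hβ.trans_le hja)
      rw [k2 β hβ] at this
      exact this.symm
  · have := hi β (hβ.trans_le hia)
    rw [k1 β hβ] at this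
    exact this

theorem lt_of_agree {α : K} {l x y : G} {i : K} (hi : ∀ j < i, val l j = val x j)
    (hlt : val l i < val x i) (hiα : i < α) (h : Agree α x y) : l < y :=
  lt_def.2 ⟨i, fun j hj => (hi j hj).trans (h j (hj.trans hiα)), by rw [← h i hiα]; exact hlt⟩

theorem mem_nhds {x : G} {U : Set G} : U ∈ 𝓝 x ↔ ∃ α, ∀ y, Agree α x y → y ∈ U := by
  have hlo : ∃ l : G, l < x := ⟨x - e (Classical.arbitrary _), by
    rw [sub_lt_self_iff]
    exact e_pos _⟩
  have hup : ∃ u : G, x < u := ⟨x + e (Classical.arbitrary _), lt_add_of_pos_right _ (e_pos _)⟩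
  rw [mem_nhds_iff_exists_Ioo_subset' hlo hup]
  constructor
  · rintro ⟨l, u, ⟨hl, hu⟩, hsub⟩
    obtain ⟨i, hi, hlt⟩ := lt_def.1 hl
    obtain ⟨j, hj, hlt'⟩ := lt_def.1 hu
    obtain ⟨α, hα⟩ := exists_gt (max i j)
    refine ⟨α, fun y hy => hsub ⟨?_, ?_⟩⟩
    · exact lt_of_agree hi hlt ((le_max_left _ _).trans_lt hα) hy
    · have hjα := (le_max_right i j).trans_lt hα
      refine lt_def.2 ⟨j, fun k hk => ?_, ?_⟩
      · rw [← hy k (hk.trans hjα)]
        exact hj k hk
      · rw [← hy j hjα]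
        exact hlt'
  · rintro ⟨α, hα⟩
    refine ⟨x - e α, x + e α, ⟨?_, ?_⟩, fun y hy => hα y (agree_of_lt hy.1 hy.2)⟩
    · rw [sub_lt_self_iff]
      exact e_pos _
    · exact lt_add_of_pos_right _ (e_pos _)

theorem Agree.symm {α : K} {x y : G} (h : Agree α x y) : Agree α y x :=
  fun β hβ => (h β hβ).symm

theorem Agree.trans {α : K} {x y z : G} (h : Agree α x y) (h' : Agree α y z) : Agree α x z :=
  fun β hβ => (h β hβ).trans (h' β hβ)

theorem isClopen_agree (α : K) (x : G) : IsClopen {y | Agree α x y} := by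
  constructor
  · rw [← isOpen_compl_iff, isOpen_iff_mem_nhds]
    intro y hy
    exact mem_nhds.2 ⟨α, fun z hz hxz => hy (hxz.trans hz.symm)⟩
  · rw [isOpen_iff_mem_nhds]
    intro y hy
    exact mem_nhds.2 ⟨α, fun z hz => hy.trans hz⟩

instance : TotallyDisconnectedSpace G := by
  have : TotallySeparatedSpace G := by
    rw [totallySeparatedSpace_iff_exists_isClopen]
    intro x y hxy
    obtain ⟨β, hβ⟩ : ∃ β, val x β ≠ val y β := by
      by_contra hcon
      push Not at hcon
      exact hxy (val_injective (funext hcon))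
    obtain ⟨α, hα⟩ := exists_gt β
    exact ⟨{z | Agree α x z}, isClopen_agree α x, fun _ _ => rfl, fun h => hβ (h β hα)⟩
  infer_instance

/-! ### The main argument -/

/-- A closed discrete set has less than `bb` elements. -/
theorem mk_lt_of_closedDiscrete {A : Set G} (hA : IsClosed A) (hd : DiscreteTopology A) :
    #A < bb := by
  classical
  -- separate the points
  have h1 : ∀ x : G, ∃ α, ∀ a ∈ A, ∀ a' ∈ A, Agree α x a → Agree α x a' → a = a' := by
    intro x
    by_cases hx : x ∈ A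
    · obtain ⟨U, hU, hUA⟩ : ∃ U ∈ 𝓝 x, U ∩ A ⊆ {x} := by
        have h2 : IsOpen ({⟨x, hx⟩} : Set A) := isOpen_discrete _
        obtain ⟨U, hU, hU2⟩ := isOpen_induced_iff.1 h2
        refine ⟨U, hU.mem_nhds ?_, ?_⟩
        · have : (⟨x, hx⟩ : A) ∈ Subtype.val ⁻¹' U := by
            rw [hU2]
            exact rfl
          exact this
        · rintro y ⟨hyU, hyA⟩
          have : (⟨y, hyA⟩ : A) ∈ Subtype.val ⁻¹' U := hyU
          rw [hU2] at this
          exact congrArg Subtype.val this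
      obtain ⟨α, hα⟩ := mem_nhds.1 hU
      refine ⟨α, fun a ha a' ha' h h' => ?_⟩
      rw [show a = x from hUA ⟨hα a h, ha⟩, show a' = x from hUA ⟨hα a' h', ha'⟩]
    · obtain ⟨α, hα⟩ := mem_nhds.1 (hA.isOpen_compl.mem_nhds hx)
      exact ⟨α, fun a ha a' _ h _ => absurd ha (hα a h)⟩
  choose α hα using h1
  have hpre : ∀ β : K, #({x : G | val x ∈ trunc β '' (Gs : Set (K → ℤ))} : Set G) < bb := by
    intro β
    exact (mk_preimage_of_injective _ _ val_injective).trans_lt (mk_trunc_lt β)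
  -- bounds for the truncations
  have h2 : ∀ β : K, ∃ β', ∀ x : G, val x ∈ trunc β '' (Gs : Set (K → ℤ)) → α x < β' := by
    intro β
    obtain ⟨β', hβ'⟩ := exists_bound (mk_image_lt (hpre β) α)
    exact ⟨β', fun x hx => hβ' _ ⟨x, hx, rfl⟩⟩
  choose f hf using h2
  -- for a closed limit, only a few elements of `A` have bounded support in it
  have h3 : ∀ δ, IsLim δ → (∀ γ < δ, f γ < δ) → #({g ∈ A | Bdd (val g) δ} : Set G) < bb := by
    intro δ _ hcl
    have hex : ∀ g ∈ {g ∈ A | Bdd (val g) δ},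
        ∃ x ∈ {x : G | val x ∈ trunc δ '' (Gs : Set (K → ℤ))}, Agree (α x) x g := by
      rintro g ⟨_, β, hβ, hg⟩
      have hlt : α ⟨trunc β (val g), trunc_mem (val_mem g) β⟩ < δ :=
        (hf β _ ⟨val g, val_mem g, rfl⟩).trans (hcl β hβ)
      refine ⟨⟨trunc β (val g), trunc_mem (val_mem g) β⟩,
        ⟨trunc β (val g), trunc_mem (val_mem g) β, ?_⟩, ?_⟩
      · funext γ
        show trunc δ (trunc β (val g)) γ = trunc β (val g) γ
        rcases lt_or_ge γ δ with h | h
        · exact trunc_of_lt _ h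
        · rw [trunc_of_le _ h, trunc_of_le _ (hβ.le.trans h)]
      · intro γ hγ
        show trunc β (val g) γ = val g γ
        rcases lt_or_ge γ β with h | h
        · exact trunc_of_lt _ h
        · rw [trunc_of_le _ h, hg γ h (hγ.trans hlt)]
    choose! x hx hag using hex
    have hinj : InjOn x {g ∈ A | Bdd (val g) δ} := by
      intro g hg g' hg' hgg
      have h1 := hag g hg
      have h2 := hag g' hg'
      rw [← hgg] at h2
      exact hα (x g) g hg.1 g' hg'.1 h1 h2
    rw [← mk_image_eq_of_injOn _ _ hinj]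
    refine (mk_le_mk_of_subset ?_).trans_lt (hpre δ)
    rintro _ ⟨g, hg, rfl⟩
    exact hx g hg
  -- infinitely many closed limits
  have h4 : ∀ β, ∃ δ, β < δ ∧ IsLim δ ∧ ∀ γ < δ, f γ < δ := exists_closed f
  choose d hd1 hd2 hd3 using h4
  let δ : ℕ → K := fun n => Nat.rec (d (Classical.arbitrary _)) (fun _ x => d x) n
  have hδmono : StrictMono δ := strictMono_nat_of_lt_succ fun n => hd1 (δ n)
  have hδ : ∀ n, IsLim (δ n) ∧ ∀ γ < δ n, f γ < δ n := by
    intro n
    cases n with
    | zero => exact ⟨hd2 _, hd3 _⟩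
    | succ n => exact ⟨hd2 _, hd3 _⟩
  have h5 : A ⊆ ⋃ n, {g ∈ A | Bdd (val g) (δ n)} := by
    intro g hg
    by_contra hcon
    have h6 : range δ ⊆ {δ | IsLim δ ∧ ¬ Bdd (val g) δ} := by
      rintro _ ⟨n, rfl⟩
      refine ⟨(hδ n).1, fun hb => hcon ?_⟩
      exact mem_iUnion.2 ⟨n, hg, hb⟩
    exact (infinite_range_of_injective hδmono.injective) ((finite_unbounded (val_mem g)).subset h6)
  exact (mk_le_mk_of_subset h5).trans_lt (mk_iUnion_nat_lt fun n => h3 _ (hδ n).1 (hδ n).2)

theorem no_suitable (S : Set G) : ¬ IsSuitable S := by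
  classical
  rintro ⟨hdisc, hclosed, hdense⟩
  -- the part of `S` outside a basic neighbourhood of `0` has less than `bb` elements
  have h1 : ∀ β, ∃ β', ∀ s ∈ S, ¬ Agree β 0 s → ∀ γ, β' ≤ γ → val s γ = 0 := by
    intro β
    have hcl : IsClosed (S \ {y | Agree β 0 y}) := by
      have : S \ {y | Agree β 0 y} = (S ∪ {0}) ∩ {y | Agree β 0 y}ᶜ := by
        ext y
        constructor
        · rintro ⟨h, h'⟩
          exact ⟨Or.inl h, h'⟩
        · rintro ⟨h | h, h'⟩
          · exact ⟨h, h'⟩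
          · exact absurd (show Agree β 0 y by rw [show y = 0 from h]; exact fun _ _ => rfl) h'
      rw [this]
      exact hclosed.inter (isClopen_agree β 0).2.isClosed_compl
    have hd : DiscreteTopology (S \ {y | Agree β 0 y} : Set G) :=
      DiscreteTopology.of_subset hdisc sdiff_subset
    have hc := mk_lt_of_closedDiscrete hcl hd
    have hb : ∀ s : G, ∃ β, ∀ γ, β ≤ γ → val s γ = 0 := fun s => exists_support_bound (val_mem s)
    choose b hb using hb
    obtain ⟨β', hβ'⟩ := exists_bound (mk_image_lt hc b)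
    exact ⟨β', fun s hs hn γ hγ => hb s γ ((hβ' _ ⟨s, ⟨hs, hn⟩, rfl⟩).le.trans hγ)⟩
  choose f hf using h1
  obtain ⟨δ, _, hδ, hcl⟩ := exists_closed f (Classical.arbitrary _)
  -- all elements of the generated subgroup have bounded support in `δ`
  have h2 : ∀ g ∈ AddSubgroup.closure S, Bdd (val g) δ := by
    intro g hg
    induction hg using AddSubgroup.closure_induction with
    | mem s hs =>
        by_cases hag : Agree δ 0 s
        · obtain ⟨β, hβ⟩ := hδ.nonempty
          exact ⟨β, hβ, fun γ _ hγ => (hag γ hγ).symm⟩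
        · unfold Agree at hag
          push Not at hag
          obtain ⟨β, hβ, hne⟩ := hag
          obtain ⟨β', hβ'δ, hβ'⟩ := hδ.exists_between hβ
          refine ⟨f β', hcl β' hβ'δ, fun γ hγ _ => hf β' s hs (fun h => hne (h β hβ')) γ hγ⟩
    | zero => exact bdd_zero hδ
    | add x y _ _ hx hy => exact hx.add hy
    | neg x _ hx => exact hx.neg
  -- but the ladder at `δ` is in the closure
  let g : G := ⟨ind (lad δ), ind_mem (Or.inr ⟨δ, rfl⟩)⟩
  obtain ⟨y, hy, hyS⟩ := mem_closure_iff.1 (hdense g) _ (isClopen_agree δ g).2 (fun _ _ => rfl)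
  obtain ⟨β, hβ, hb⟩ := h2 y hyS
  exact not_bdd_lad hδ ⟨β, hβ, fun γ h h' => (hy γ h').trans (hb γ h h')⟩

/-- `X` is a generalized orderable space: for some linear order the topology contains the
open-interval topology and has a base of convex sets. -/
def IsGO (X : Type) [TopologicalSpace X] : Prop :=
  ∃ _ : LinearOrder X, (∀ a : X, IsOpen (Iio a) ∧ IsOpen (Ioi a)) ∧
    ∀ x : X, ∀ V ∈ 𝓝 x, ∃ U : Set X, U ⊆ V ∧ IsOpen U ∧ x ∈ U ∧ U.OrdConnected

/-- `X` has an `ω^ω`-base. -/
def HasOmegaOmegaBase (X : Type) [TopologicalSpace X] : Prop :=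
  ∀ x : X, ∃ U : (ℕ → ℕ) → Set X, (∀ α, U α ∈ 𝓝 x) ∧ (∀ V ∈ 𝓝 x, ∃ α, U α ⊆ V) ∧
    ∀ α β, (∀ n, α n ≤ β n) → U β ⊆ U α

theorem isGO : IsGO G := by
  refine ⟨inferInstance, fun a => ⟨isOpen_Iio, isOpen_Ioi⟩, fun x V hV => ?_⟩
  have hlo : ∃ l : G, l < x := ⟨x - e (Classical.arbitrary _), by
    rw [sub_lt_self_iff]
    exact e_pos _⟩
  have hup : ∃ u : G, x < u := ⟨x + e (Classical.arbitrary _), lt_add_of_pos_right _ (e_pos _)⟩
  rw [mem_nhds_iff_exists_Ioo_subset' hlo hup] at hV
  obtain ⟨l, u, hx, hsub⟩ := hV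
  exact ⟨Ioo l u, hsub, isOpen_Ioo, hx, ordConnected_Ioo⟩

theorem hasOmegaOmegaBase : HasOmegaOmegaBase G := by
  obtain ⟨f, hf1, hf2⟩ := exists_mono_cofinal
  intro x
  refine ⟨fun α => {y | Agree (f α) x y}, ?_, ?_, ?_⟩
  · intro α
    exact mem_nhds.2 ⟨f α, fun y hy => hy⟩
  · intro V hV
    obtain ⟨ξ, hξ⟩ := mem_nhds.1 hV
    obtain ⟨α, hα⟩ := hf2 ξ
    exact ⟨α, fun y hy => hξ y (hy.mono hα.le)⟩
  · intro α β hαβ y hy
    exact Agree.mono hy (hf1 α β hαβ)

/-- There is a generalized orderable Hausdorff topological group (even one whose topology is the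
order topology of a translation invariant linear order) with an `ω^ω`-base which has no suitable
set. -/
theorem result : ∃ (G : Type) (_ : AddCommGroup G) (_ : LinearOrder G) (_ : TopologicalSpace G),
    IsOrderedAddMonoid G ∧ OrderTopology G ∧
    IsTopologicalAddGroup G ∧ T2Space G ∧ IsGO G ∧ HasOmegaOmegaBase G ∧
    ¬ ∃ S : Set G, IsSuitable S :=
  ⟨G, inferInstance, inferInstance, inferInstance, inferInstance, inferInstance, inferInstance,
    inferInstance, isGO, hasOmegaOmegaBase, fun ⟨S, hS⟩ => no_suitable S hS⟩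

end Pool.Agent.Results.MP_eb7acf_gt.NoSuitableSet
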